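import Mathlib.Logic.Basic
namespace Pool.Agent.Lib.lead
theorem and_swap' {p q : Prop} (h : p ∧ q) : q ∧ p := ⟨h.2, h.1⟩
end Pool.Agent.Lib.lead
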